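import Pool.Agent.H6.NE.Stm1

set_option autoImplicit false

open Finset

namespace H76.NE

open H6.NE

theorem t_KPU (hL : S_LEN) : S_KPU := by
  intro p N hp k V W _ _ _ _ _ _ _ b x u n
  obtain ⟨L1, L2, L3, L4, L5, L6, L7, L8⟩ := hL p N
  have fin : ∀ n, Finite (KP b x u n) := by
    intro n
    apply Finite.of_injective (fun (y : KP b x u n) (j : Fin n) => (y : ℕ → k) j)
    intro y z hyz
    apply Subtype.ext
    funext j
    by_cases hj : j < n
    · exact congrFun hyz ⟨j, hj⟩
    · rw [y.2.1 j (not_lt.mp hj), z.2.1 j (not_lt.mp hj)]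
  refine ⟨fin n, ?_⟩
  induction n with
  | zero =>
    have h1 : Subsingleton (KP b x u 0) := by
      constructor
      intro y z
      apply Subtype.ext
      funext j
      rw [y.2.1 j (Nat.zero_le _), z.2.1 j (Nat.zero_le _)]
    have h2 : Nat.card (KP b x u 0) = 1 := Nat.card_unique
    unfold ln
    rw [h2]
    simp
  | succ n ih =>
    have f1 := fin n
    have f2 := fin (n + 1)
    let φ : KP b x u (n + 1) →ₗ[ZMod (p ^ N)] k :=
      (LinearMap.proj n).comp (KP b x u (n + 1)).subtype
    have e1 := L1 _ _ φ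
    have h1 : LinearMap.range φ ≤ Sv b u := by
      rintro _ ⟨y, rfl⟩
      rw [mem_Sv]
      have h3 := y.2.2.2 n
      have h4 := y.2.1 (n + 1) le_rfl
      rw [h4, map_zero, LinearMap.zero_apply, zero_add] at h3
      exact h3
    have h2 : ln p (LinearMap.range φ) ≤ ln p (Sv b u) := L4 _ _ _ h1
    have hmem : ∀ y : LinearMap.ker φ, (((y : KP b x u (n + 1)) : ℕ → k)) ∈ KP b x u n := by
      intro y
      refine ⟨?_, y.1.2.2.1, y.1.2.2.2⟩
      intro j hj
      rcases hj.eq_or_lt with h | h
      · have := y.2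
        rw [LinearMap.mem_ker] at this
        rw [← h]
        exact this
      · exact y.1.2.1 j h
    let g : LinearMap.ker φ →ₗ[ZMod (p ^ N)] KP b x u n :=
      LinearMap.codRestrict (KP b x u n)
        ((KP b x u (n + 1)).subtype.comp (LinearMap.ker φ).subtype) hmem
    have hg : Function.Injective g := by
      intro y z hyz
      have := congrArg Subtype.val hyz
      exact Subtype.ext (Subtype.ext this)
    have h3 : ln p (LinearMap.ker φ) ≤ ln p (KP b x u n) := L6 _ _ g hg
    have h4 : (n + 1) * ln p (Sv b u) = n * ln p (Sv b u) + ln p (Sv b u) := by ring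
    omega

end H76.NE
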