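import Pool.Agent.H6.NE.Stm1

set_option autoImplicit false

open Finset

namespace H76.NE

open H6.NE

theorem card_pow (p N : ℕ) [Fact p.Prime] (M : Type) [AddCommGroup M] [Module (ZMod (p ^ N)) M]
    [Finite M] : ∃ n, Nat.card M = p ^ n := by
  have h : IsPGroup p (Multiplicative M) := by
    intro g
    refine ⟨N, ?_⟩
    have h1 : ((p ^ N : ℕ) : ZMod (p ^ N)) • (Multiplicative.toAdd g) = 0 := by
      rw [ZMod.natCast_self, zero_smul]
    rw [Nat.cast_smul_eq_nsmul] at h1
    have h2 : Multiplicative.toAdd (g ^ p ^ N) = 0 := by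
      rw [toAdd_pow]; exact h1
    exact Multiplicative.toAdd.injective (by rw [h2]; rfl)
  obtain ⟨n, hn⟩ := IsPGroup.iff_card.mp h
  exact ⟨n, hn⟩

theorem card_eq (p N : ℕ) [Fact p.Prime] (M : Type) [AddCommGroup M] [Module (ZMod (p ^ N)) M]
    [Finite M] : Nat.card M = p ^ ln p M := by
  obtain ⟨n, hn⟩ := card_pow p N M
  unfold ln
  rw [hn, Nat.Prime.factorization_pow (Fact.out), Finsupp.single_eq_same]

theorem t_LEN : S_LEN := by
  intro p N hp
  have hp1 : 1 < p := hp.out.one_lt
  refine ⟨?_, ?_, ?_, ?_, ?_, ?_, ?_, ?_⟩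
  · intro M M' _ _ _ _ _ f
    have h1 := Submodule.card_eq_card_quotient_mul_card (LinearMap.ker f)
    have h2 : Nat.card (M ⧸ LinearMap.ker f) = Nat.card (LinearMap.range f) :=
      Nat.card_congr f.quotKerEquivRange.toEquiv
    have : Finite (LinearMap.range f) := Finite.of_surjective _ f.surjective_rangeRestrict
    unfold ln
    rw [h1, h2, Nat.factorization_mul (Nat.card_pos.ne') (Nat.card_pos.ne')]
    simp [add_comm]
  · intro M _ _ _ A
    have h1 := Submodule.card_eq_card_quotient_mul_card A
    have hf : Finite (M ⧸ A) := Finite.of_surjective A.mkQ A.mkQ_surjective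
    unfold ln
    rw [h1, Nat.factorization_mul (Nat.card_pos.ne') (Nat.card_pos.ne')]
    simp [add_comm]
  · intro M _ _ _
    exact card_eq p N M
  · intro M _ _ _ A B hAB
    have h1 := card_eq p N A
    have h2 := card_eq p N B
    have h3 : Nat.card A ≤ Nat.card B :=
      Nat.card_le_card_of_injective (Submodule.inclusion hAB) (Submodule.inclusion_injective hAB)
    rw [h1, h2] at h3
    exact (Nat.pow_le_pow_iff_right hp1).mp h3
  · intro M _ _ _ A B hAB h
    have h1 := card_eq p N A
    have h2 := card_eq p N B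
    have h3 : Nat.card B ≤ Nat.card A := by
      rw [h1, h2]
      exact Nat.pow_le_pow_right hp.out.pos h
    refine le_antisymm hAB ?_
    have hfin : (B : Set M).Finite := Set.toFinite _
    have h4 : (A : Set M) = B := Set.eq_of_subset_of_ncard_le hAB (by
      rw [← Nat.card_coe_set_eq, ← Nat.card_coe_set_eq]; exact h3) hfin
    intro x hx
    have : x ∈ (A : Set M) := by rw [h4]; exact hx
    exact this
  · intro M M' _ _ _ _ _ _ f hf
    have h1 := card_eq p N M
    have h2 := card_eq p N M'
    have h3 : Nat.card M ≤ Nat.card M' := Nat.card_le_card_of_injective f hf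
    rw [h1, h2] at h3
    exact (Nat.pow_le_pow_iff_right hp1).mp h3
  · intro M _ _ _ I _
    unfold ln
    rw [Nat.card_fun, Nat.factorization_pow]
    simp [Nat.card_eq_fintype_card]
  · intro M M' _ _ _ _ _ _
    unfold ln
    rw [Nat.card_prod, Nat.factorization_mul (Nat.card_pos.ne') (Nat.card_pos.ne')]
    simp

end H76.NE
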