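import Pool.Agent.H6.NE.Stm1

set_option autoImplicit false

open Finset

namespace H76.NE

open H6.NE

theorem unit_of_lt (p N : ℕ) [Fact p.Prime] (i : ℕ) (h0 : 0 < i) (h1 : i < p) :
    IsUnit (i : ZMod (p ^ N)) := by
  rw [ZMod.isUnit_iff_coprime]
  apply Nat.Coprime.pow_right
  exact (Nat.Coprime.symm ((Nat.Prime.coprime_iff_not_dvd (Fact.out)).mpr
    (fun h => by have := Nat.le_of_dvd h0 h; omega)))

theorem t_NOD : S_NOD := by
  intro p N hp hN
  have hu := unit_of_lt p N
  have hntr : Nontrivial (ZMod (p ^ N)) := by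
    have : Fact (1 < p ^ N) := ⟨Nat.one_lt_pow hN.ne' hp.out.one_lt⟩
    infer_instance
  have hinj : ∀ i ∈ Finset.range p, ∀ j ∈ Finset.range p,
      (i : ZMod (p ^ N)) = (j : ZMod (p ^ N)) → i = j := by
    intro i hi j hj h
    rw [Finset.mem_range] at hi hj
    by_contra hne
    rcases lt_or_gt_of_ne hne with h1 | h1
    · have h2 : IsUnit ((j - i : ℕ) : ZMod (p ^ N)) := hu (j - i) (by omega) (by omega)
      rw [Nat.cast_sub h1.le, h, sub_self] at h2
      exact not_isUnit_zero h2
    · have h2 : IsUnit ((i - j : ℕ) : ZMod (p ^ N)) := hu (i - j) (by omega) (by omega)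
      rw [Nat.cast_sub h1.le, h, sub_self] at h2
      exact not_isUnit_zero h2
  refine ⟨?_, ?_, ?_, fun i => hu i⟩
  · intro s hs t ht hst
    rw [Finset.mem_image] at hs ht
    obtain ⟨i, hi, rfl⟩ := hs
    obtain ⟨j, hj, rfl⟩ := ht
    rw [Finset.mem_range] at hi hj
    have hij : i ≠ j := fun h => hst (by rw [h])
    rcases lt_or_gt_of_ne hij with h1 | h1
    · have h2 : IsUnit ((j - i : ℕ) : ZMod (p ^ N)) := hu (j - i) (by omega) (by omega)
      rw [Nat.cast_sub h1.le] at h2
      rw [← neg_sub]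
      exact h2.neg
    · have h2 : IsUnit ((i - j : ℕ) : ZMod (p ^ N)) := hu (i - j) (by omega) (by omega)
      rwa [Nat.cast_sub h1.le] at h2
  · rw [Finset.card_image_of_injOn (fun i hi j hj h => hinj i hi j hj h), Finset.card_range]
  · intro T hT
    have hdvd : p ∣ p ^ N := dvd_pow_self p hN.ne'
    let f : ZMod (p ^ N) →+* ZMod p := ZMod.castHom hdvd (ZMod p)
    have hf : Set.InjOn f (T : Set (ZMod (p ^ N))) := by
      intro s hs t ht h
      by_contra hne
      have h1 := (hT s hs t ht hne).map f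
      rw [map_sub, h, sub_self] at h1
      exact not_isUnit_zero h1
    calc T.card = (T.image f).card := (Finset.card_image_of_injOn hf).symm
      _ ≤ Fintype.card (ZMod p) := Finset.card_le_univ _
      _ = p := ZMod.card p

end H76.NE
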