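import Pool.Agent.H6.NE.Stm1

set_option autoImplicit false

open Finset

namespace H76.NE

open H6.NE

theorem t_VDM : S_VDM := by
  intro p N hp M _ _ Q n y T hT hn h j hj
  obtain ⟨T', hT', hc⟩ := Finset.exists_subset_card_eq hn
  let e : Fin n ≃ T' := (T'.equivFinOfCardEq hc).symm
  let v : Fin n → ZMod (p ^ N) := fun i => (e i : ZMod (p ^ N))
  have hdet : IsUnit (Matrix.vandermonde v).det := by
    rw [Matrix.det_vandermonde]
    refine Finset.prod_induction _ IsUnit (fun a b => IsUnit.mul) isUnit_one ?_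
    intro i _
    refine Finset.prod_induction _ IsUnit (fun a b => IsUnit.mul) isUnit_one ?_
    intro k hk
    rw [Finset.mem_Ioi] at hk
    apply hT _ (hT' (e k).2) _ (hT' (e i).2)
    intro heq
    have h1 : e k = e i := Subtype.ext heq
    have h2 := e.injective h1
    exact absurd h2 hk.ne'
  have hinv := Matrix.nonsing_inv_mul (Matrix.vandermonde v) hdet
  have hval : ∀ i : Fin n, ∑ k : Fin n, (Matrix.vandermonde v) i k • y k ∈ Q := by
    intro i
    have h1 := h (v i) (hT' (e i).2)
    rw [← Fin.sum_univ_eq_sum_range (fun j => v i ^ j • y j) n] at h1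
    simpa [Matrix.vandermonde_apply] using h1
  have hy : y j = ∑ i : Fin n, ((Matrix.vandermonde v)⁻¹ ⟨j, hj⟩ i) •
      ∑ k : Fin n, (Matrix.vandermonde v) i k • y k := by
    have h1 : ∀ i : Fin n, ((Matrix.vandermonde v)⁻¹ ⟨j, hj⟩ i) •
        ∑ k : Fin n, (Matrix.vandermonde v) i k • y k =
        ∑ k : Fin n, ((Matrix.vandermonde v)⁻¹ ⟨j, hj⟩ i * (Matrix.vandermonde v) i k) • y k := by
      intro i
      rw [Finset.smul_sum]
      exact Finset.sum_congr rfl (fun k _ => by rw [mul_smul])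
    rw [Finset.sum_congr rfl (fun i _ => h1 i), Finset.sum_comm]
    have h2 : ∀ k : Fin n, ∑ i : Fin n,
        ((Matrix.vandermonde v)⁻¹ ⟨j, hj⟩ i * (Matrix.vandermonde v) i k) • y k =
        (if (⟨j, hj⟩ : Fin n) = k then (1 : ZMod (p ^ N)) else 0) • y k := by
      intro k
      rw [← Finset.sum_smul]
      have h3 := congrFun (congrFun hinv ⟨j, hj⟩) k
      rw [Matrix.mul_apply, Matrix.one_apply] at h3
      rw [h3]
    rw [Finset.sum_congr rfl (fun k _ => h2 k), Finset.sum_eq_single (⟨j, hj⟩ : Fin n)]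
    · simp
    · intro k _ hk
      rw [if_neg (Ne.symm hk), zero_smul]
    · simp
  rw [hy]
  exact Q.sum_mem (fun i _ => Q.smul_mem _ (hval i))

end H76.NE
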